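import Pool.Agent.Helper68.Dom.Goals

/-!
# Project DOM (MP_18808e_co): the goal COMPS

If the deletion of the edge `ux` makes the part `Z` planar and `x` has only the neighbours
`u, p, q` in `Z`, then `Z \ {u, x, p, q}` has two components, each of which touches both `p` and
`q`. Hypotheses: BRANCH and MODX.
-/

namespace NApexGraphs.Dom.Helper59

open SimpleGraph NApexGraphs NApexGraphs.Dom

variable {V : Type} {G : SimpleGraph V} {u x : V}

theorem adj_del {a b : V} (h : G.Adj a b) (h1 : a ≠ x ∨ b ≠ u) (h2 : a ≠ u ∨ b ≠ x) :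
    (G.deleteEdges {s(u, x)}).Adj a b := by
  rw [SimpleGraph.deleteEdges_adj]
  refine ⟨h, ?_⟩
  rw [Set.mem_singleton_iff, Sym2.eq_iff]
  rintro (⟨e1, e2⟩ | ⟨e1, e2⟩)
  · rcases h2 with h2 | h2
    · exact h2 e1
    · exact h2 e2
  · rcases h1 with h1 | h1
    · exact h1 e1
    · exact h1 e2

theorem conn_del {S : Set V} (h : Conn G S) (hx : x ∉ S) :
    Conn (G.deleteEdges {s(u, x)}) S := by
  apply h.mono
  intro a ha b hb hab
  exact adj_del hab (Or.inl fun e => hx (e ▸ ha)) (Or.inr fun e => hx (e ▸ hb))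

theorem touch_del {S T : Set V} (h : Touch G S T) (hx : x ∉ S) (hx' : x ∉ T) :
    Touch (G.deleteEdges {s(u, x)}) S T := by
  obtain ⟨a, ha, b, hb, hab⟩ := h
  exact ⟨a, ha, b, hb, adj_del hab (Or.inl fun e => hx (e ▸ ha)) (Or.inr fun e => hx' (e ▸ hb))⟩

theorem touch_u {S : Set V} (hdom : ∀ v, v ≠ u → G.Adj u v) (hne : S.Nonempty) (hx : x ∉ S)
    (hu : u ∉ S) : Touch (G.deleteEdges {s(u, x)}) S {u} := by
  obtain ⟨a, ha⟩ := hne
  have hau : a ≠ u := fun e => hu (e ▸ ha)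
  have hax : a ≠ x := fun e => hx (e ▸ ha)
  exact ⟨a, ha, u, rfl, adj_del (hdom a hau).symm (Or.inl hax) (Or.inl hau)⟩

/-- the `K₃,₃` with the sides `E, F, T ∪ {x}` and `{y}, R, {u}` -/
theorem k33_del {Z : Set V} {p q y : V} {E F T R : Set V} (hdom : ∀ v, v ≠ u → G.Adj u v)
    (hux : u ≠ x) (hu : u ∈ Z) (hx : x ∈ Z) (hxp : G.Adj x p) (hxq : G.Adj x q) (pT : p ∈ T)
    (qR : q ∈ R) (cE : Conn G E) (cF : Conn G F) (cT : Conn G T) (cR : Conn G R)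
    (yT : y ∉ T) (yE : y ∉ E) (yF : y ∉ F) (yR : y ∉ R) (yu : y ≠ u) (yx : y ≠ x) (yZ : y ∈ Z)
    (dEF : Disjoint E F) (dET : Disjoint E T) (dFT : Disjoint F T) (dER : Disjoint E R)
    (dFR : Disjoint F R) (dTR : Disjoint T R)
    (sE : E ⊆ Z) (sF : F ⊆ Z) (sT : T ⊆ Z) (sR : R ⊆ Z)
    (uE : u ∉ E) (uF : u ∉ F) (uT : u ∉ T) (uR : u ∉ R)
    (xE : x ∉ E) (xF : x ∉ F) (xT : x ∉ T) (xR : x ∉ R)
    (tEy : Touch G E {y}) (tFy : Touch G F {y}) (tTy : Touch G T {y})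
    (tER : Touch G E R) (tFR : Touch G F R) :
    HasK33 (G.deleteEdges {s(u, x)}) Z := by
  have pu : p ≠ u := fun e => uT (e ▸ pT)
  have px : p ≠ x := fun e => xT (e ▸ pT)
  have qu : q ≠ u := fun e => uR (e ▸ qR)
  have qx : q ≠ x := fun e => xR (e ▸ qR)
  have cTx : Conn (G.deleteEdges {s(u, x)}) (T ∪ {x}) :=
    (conn_del cT xT).union (Conn.singleton _ x)
      ⟨p, pT, x, rfl, adj_del hxp.symm (Or.inl px) (Or.inl pu)⟩
  have xy : x ∉ ({y} : Set V) := fun h => yx (Set.mem_singleton_iff.1 h).symm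
  have ds : ∀ {S : Set V} {a : V}, a ∉ S → Disjoint S {a} := fun h =>
    Set.disjoint_singleton_right.2 h
  apply hasK33_sets E F (T ∪ {x}) {y} R {u}
  · simp only [List.mem_cons, List.not_mem_nil, or_false, forall_eq_or_imp, forall_eq]
    exact ⟨conn_del cE xE, conn_del cF xF, cTx, Conn.singleton _ y, conn_del cR xR,
      Conn.singleton _ u⟩
  · simp only [List.pairwise_cons, List.mem_cons, List.not_mem_nil, or_false, forall_eq_or_imp,
      forall_eq, IsEmpty.forall_iff, implies_true, List.Pairwise.nil, and_true]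
    refine ⟨⟨dEF, ?_, ds yE, dER, ds uE⟩, ⟨?_, ds yF, dFR, ds uF⟩, ⟨?_, ?_, ?_⟩, ⟨?_, ?_⟩, ds uR⟩
    · exact Set.disjoint_union_right.2 ⟨dET, ds xE⟩
    · exact Set.disjoint_union_right.2 ⟨dFT, ds xF⟩
    · exact Set.disjoint_union_left.2 ⟨ds yT, Set.disjoint_singleton.2 yx.symm⟩
    · exact Set.disjoint_union_left.2 ⟨dTR, (ds xR).symm⟩
    · exact Set.disjoint_union_left.2 ⟨ds uT, Set.disjoint_singleton.2 hux.symm⟩
    · exact (ds yR).symm
    · exact Set.disjoint_singleton.2 yu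
  · simp only [List.mem_cons, List.not_mem_nil, or_false, forall_eq_or_imp, forall_eq]
    refine ⟨⟨touch_del tEy xE xy, touch_del tER xE xR, touch_u hdom cE.1 xE uE⟩,
      ⟨touch_del tFy xF xy, touch_del tFR xF xR, touch_u hdom cF.1 xF uF⟩,
      ⟨(touch_del tTy xT xy).mono le_rfl Set.subset_union_left Set.Subset.rfl, ?_,
        (touch_u hdom cT.1 xT uT).mono le_rfl Set.subset_union_left Set.Subset.rfl⟩⟩
    exact ⟨x, Or.inr rfl, q, qR, adj_del hxq (Or.inr qu) (Or.inr qx)⟩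
  · simp only [List.mem_cons, List.not_mem_nil, or_false, forall_eq_or_imp, forall_eq]
    exact ⟨sE, sF, Set.union_subset sT (Set.singleton_subset_iff.2 hx),
      Set.singleton_subset_iff.2 yZ, sR, Set.singleton_subset_iff.2 hu⟩

theorem gCOMPS : Goals.BRANCH → Goals.MODX → Goals.COMPS := by
  intro hBr hMo V _ G Z u x p q hu hx hp hq hux hpx hqx hpu hqu hpq hdom hxp hxq hN hPl hnPl
  obtain ⟨E, F, P, Q, hc, hd, hs, pP, qQ, tEP, tEQ, tFP, tFQ⟩ :=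
    hMo V G Z u x p q hux hpx hqx (hdom p hpu) (hdom q hqu) hN hPl hnPl
  simp only [List.mem_cons, List.not_mem_nil, or_false, forall_eq_or_imp, forall_eq] at hc hs
  simp only [List.pairwise_cons, List.mem_cons, List.not_mem_nil, or_false, forall_eq_or_imp,
    forall_eq, IsEmpty.forall_iff, implies_true, List.Pairwise.nil, and_true] at hd
  obtain ⟨cE, cF, cP, cQ⟩ := hc
  obtain ⟨⟨sE, uE, xE⟩, ⟨sF, uF, xF⟩, ⟨sP, uP, xP⟩, ⟨sQ, uQ, xQ⟩⟩ := hs
  obtain ⟨⟨dEF, dEP, dEQ⟩, ⟨dFP, dFQ⟩, dPQ⟩ := hd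
  have pQ : p ∉ Q := Set.disjoint_left.1 dPQ pP
  have qP : q ∉ P := Set.disjoint_right.1 dPQ qQ
  have ds : ∀ {S : Set V} {a : V}, a ∉ S → Disjoint S {a} := fun h =>
    Set.disjoint_singleton_right.2 h
  -- step 1: enlarge inside `P`
  obtain ⟨E1, F1, cE1, cF1, dEF1, sE1, sF1, tE1p, tF1p, tE1Q, tF1Q⟩ :
      ∃ E1 F1 : Set V, Conn G E1 ∧ Conn G F1 ∧ Disjoint E1 F1 ∧ E1 ⊆ (E ∪ P) \ {p} ∧
        F1 ⊆ (F ∪ P) \ {p} ∧ Touch G E1 {p} ∧ Touch G F1 {p} ∧ Touch G E1 Q ∧ Touch G F1 Q := by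
    rcases hBr V G P E F p cP pP cE cF dEP.symm dFP.symm dEF tEP.symm tFP.symm with
      ⟨E1, F1, hE, hF, cE1, cF1, dEF1, sE1, sF1, tE, tF⟩ |
      ⟨E1, F1, T, y, hE, hF, cE1, cF1, cT, pT, yP, yT, yE, yF, d1, d2, d3, s1, s2, s3, t1, t2, t3⟩
    · exact ⟨E1, F1, cE1, cF1, dEF1, sE1, sF1, tE, tF, tEQ.mono le_rfl hE Set.Subset.rfl,
        tFQ.mono le_rfl hF Set.Subset.rfl⟩
    · exfalso
      apply hPl.2
      have key : ∀ {a : V} {S S1 : Set V}, a ∉ S → a ∉ P → S1 ⊆ S ∪ P → a ∉ S1 :=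
        fun h1 h2 h3 h4 => (h3 h4).elim h1 h2
      exact k33_del (p := p) (q := q) (y := y) (E := E1) (F := F1) (T := T) (R := Q) hdom hux hu hx
        hxp hxq pT qQ cE1 cF1 cT cQ yT yE yF (Set.disjoint_left.1 dPQ yP)
        (fun e => uP (e ▸ yP)) (fun e => xP (e ▸ yP)) (sP yP) d1 d2 d3
        ((Set.disjoint_union_left.2 ⟨dEQ, dPQ⟩).mono_left s1)
        ((Set.disjoint_union_left.2 ⟨dFQ, dPQ⟩).mono_left s2) (dPQ.mono_left s3)
        (s1.trans (Set.union_subset sE sP)) (s2.trans (Set.union_subset sF sP)) (s3.trans sP) sQ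
        (key uE uP s1) (key uF uP s2) (fun h => uP (s3 h)) uQ
        (key xE xP s1) (key xF xP s2) (fun h => xP (s3 h)) xQ t1 t2 t3
        (tEQ.mono le_rfl hE Set.Subset.rfl) (tFQ.mono le_rfl hF Set.Subset.rfl)
  have sE1Z : E1 ⊆ Z := fun a ha => (sE1 ha).1.elim (fun h => sE h) (fun h => sP h)
  have sF1Z : F1 ⊆ Z := fun a ha => (sF1 ha).1.elim (fun h => sF h) (fun h => sP h)
  have uE1 : u ∉ E1 := fun ha => (sE1 ha).1.elim uE uP
  have uF1 : u ∉ F1 := fun ha => (sF1 ha).1.elim uF uP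
  have xE1 : x ∉ E1 := fun ha => (sE1 ha).1.elim xE xP
  have xF1 : x ∉ F1 := fun ha => (sF1 ha).1.elim xF xP
  have pE1 : p ∉ E1 := fun ha => (sE1 ha).2 rfl
  have pF1 : p ∉ F1 := fun ha => (sF1 ha).2 rfl
  have dE1Q : Disjoint E1 Q :=
    (Set.disjoint_union_left.2 ⟨dEQ, dPQ⟩).mono_left fun a ha => (sE1 ha).1
  have dF1Q : Disjoint F1 Q :=
    (Set.disjoint_union_left.2 ⟨dFQ, dPQ⟩).mono_left fun a ha => (sF1 ha).1
  -- step 2: enlarge inside `Q`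
  obtain ⟨E2, F2, cE2, cF2, dEF2, sE2, sF2, tE2p, tF2p, tE2q, tF2q⟩ :
      ∃ E2 F2 : Set V, Conn G E2 ∧ Conn G F2 ∧ Disjoint E2 F2 ∧ E2 ⊆ (E1 ∪ Q) \ {q} ∧
        F2 ⊆ (F1 ∪ Q) \ {q} ∧ Touch G E2 {p} ∧ Touch G F2 {p} ∧ Touch G E2 {q} ∧
        Touch G F2 {q} := by
    rcases hBr V G Q E1 F1 q cQ qQ cE1 cF1 dE1Q.symm dF1Q.symm dEF1 tE1Q.symm tF1Q.symm with
      ⟨E2, F2, hE, hF, cE2, cF2, dEF2, sE2, sF2, tE, tF⟩ |
      ⟨E2, F2, T, y, hE, hF, cE2, cF2, cT, qT, yQ, yT, yE, yF, d1, d2, d3, s1, s2, s3, t1, t2, t3⟩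
    · exact ⟨E2, F2, cE2, cF2, dEF2, sE2, sF2, tE1p.mono le_rfl hE Set.Subset.rfl,
        tF1p.mono le_rfl hF Set.Subset.rfl, tE, tF⟩
    · exfalso
      apply hPl.2
      have key : ∀ {a : V} {S S1 : Set V}, a ∉ S → a ∉ Q → S1 ⊆ S ∪ Q → a ∉ S1 :=
        fun h1 h2 h3 h4 => (h3 h4).elim h1 h2
      exact k33_del (p := q) (q := p) (y := y) (E := E2) (F := F2) (T := T) (R := {p}) hdom hux
        hu hx hxq hxp qT rfl cE2 cF2 cT (Conn.singleton G p) yT yE yF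
        (fun e => pQ ((Set.mem_singleton_iff.1 e) ▸ yQ))
        (fun e => uQ (e ▸ yQ)) (fun e => xQ (e ▸ yQ)) (sQ yQ) d1 d2 d3
        (ds (key pE1 pQ s1)) (ds (key pF1 pQ s2)) (ds fun h => pQ (s3 h))
        (s1.trans (Set.union_subset sE1Z sQ)) (s2.trans (Set.union_subset sF1Z sQ)) (s3.trans sQ)
        (Set.singleton_subset_iff.2 hp)
        (key uE1 uQ s1) (key uF1 uQ s2) (fun h => uQ (s3 h))
        (fun h => hpu (Set.mem_singleton_iff.1 h).symm)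
        (key xE1 xQ s1) (key xF1 xQ s2) (fun h => xQ (s3 h))
        (fun h => hpx (Set.mem_singleton_iff.1 h).symm) t1 t2 t3
        (tE1p.mono le_rfl hE Set.Subset.rfl) (tF1p.mono le_rfl hF Set.Subset.rfl)
  have key2 : ∀ {S S1 : Set V}, S ⊆ Z → u ∉ S → x ∉ S → p ∉ S → S1 ⊆ (S ∪ Q) \ {q} →
      S1 ⊆ Z \ {u, x, p, q} := by
    intro S S1 h1 h2 h3 h4 h5 a ha
    obtain ⟨h6, h7⟩ := h5 ha
    refine ⟨h6.elim (fun h => h1 h) (fun h => sQ h), ?_⟩
    rintro (rfl | rfl | rfl | h)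
    · exact h6.elim h2 uQ
    · exact h6.elim h3 xQ
    · exact h6.elim h4 pQ
    · exact h7 h
  have hE2 : E2 ⊆ Z \ {u, x, p, q} := key2 sE1Z uE1 xE1 pE1 sE2
  have hF2 : F2 ⊆ Z \ {u, x, p, q} := key2 sF1Z uF1 xF1 pF1 sF2
  -- components
  obtain ⟨C1, hC1, hEC1⟩ := exists_comp (O := (Z \ {u, x, p, q}) \ F2) cE2
    (fun a ha => ⟨hE2 ha, Set.disjoint_left.1 dEF2 ha⟩)
  have hC1O : C1 ⊆ Z \ {u, x, p, q} := fun a ha => (hC1.sub ha).1
  have hC1F : Disjoint C1 F2 := Set.disjoint_left.2 fun a ha => (hC1.sub ha).2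
  have tC1p : Touch G C1 {p} := tE2p.mono le_rfl hEC1 Set.Subset.rfl
  have tC1q : Touch G C1 {q} := tE2q.mono le_rfl hEC1 Set.Subset.rfl
  have key3 : ∀ {S : Set V}, S ⊆ Z \ {u, x, p, q} → S ⊆ Z ∧ u ∉ S ∧ x ∉ S ∧ p ∉ S ∧ q ∉ S := by
    intro S h
    refine ⟨fun a ha => (h ha).1, fun ha => (h ha).2 ?_, fun ha => (h ha).2 ?_,
      fun ha => (h ha).2 ?_, fun ha => (h ha).2 ?_⟩ <;> simp
  obtain ⟨sC, uC, xC, pC, qC⟩ := key3 hC1O
  obtain ⟨sF', uF', xF', pF', qF'⟩ := key3 hF2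
  have hnt : ¬ Touch G C1 F2 := by
    intro ht
    apply hPl.1
    have xq : x ∉ ({q} : Set V) := fun h => hqx (Set.mem_singleton_iff.1 h).symm
    have xp : x ∉ ({p} : Set V) := fun h => hpx (Set.mem_singleton_iff.1 h).symm
    have hpp : ({p} : Set V) ⊆ {p, x} := Set.singleton_subset_iff.2 (Or.inl rfl)
    have dpx : ∀ {S : Set V}, p ∉ S → x ∉ S → Disjoint S {p, x} := by
      intro S h1 h2
      rw [Set.disjoint_left]
      rintro a ha (rfl | h)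
      · exact h1 ha
      · exact h2 ((Set.mem_singleton_iff.1 h) ▸ ha)
    apply hasK5_sets C1 F2 {p, x} {q} {u}
    · simp only [List.mem_cons, List.not_mem_nil, or_false, forall_eq_or_imp, forall_eq]
      exact ⟨conn_del hC1.conn xC, conn_del cF2 xF',
        conn_pair (adj_del hxp.symm (Or.inl hpx) (Or.inl hpu)), Conn.singleton _ q,
        Conn.singleton _ u⟩
    · simp only [List.pairwise_cons, List.mem_cons, List.not_mem_nil, or_false,
        forall_eq_or_imp, forall_eq, IsEmpty.forall_iff, implies_true, List.Pairwise.nil,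
        and_true]
      refine ⟨⟨hC1F, dpx pC xC, ds qC, ds uC⟩, ⟨dpx pF' xF', ds qF', ds uF'⟩, ⟨?_, ?_⟩, ?_⟩
      · exact (dpx (fun h => hpq (Set.mem_singleton_iff.1 h)) xq).symm
      · exact (dpx (fun h => hpu (Set.mem_singleton_iff.1 h))
          (fun h => hux (Set.mem_singleton_iff.1 h).symm)).symm
      · exact Set.disjoint_singleton.2 hqu
    · simp only [List.pairwise_cons, List.mem_cons, List.not_mem_nil, or_false,
        forall_eq_or_imp, forall_eq, IsEmpty.forall_iff, implies_true, List.Pairwise.nil,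
        and_true]
      refine ⟨⟨touch_del ht xC xF', (touch_del tC1p xC xp).mono le_rfl Set.Subset.rfl hpp,
          touch_del tC1q xC xq, touch_u hdom hC1.conn.1 xC uC⟩,
        ⟨(touch_del tF2p xF' xp).mono le_rfl Set.Subset.rfl hpp, touch_del tF2q xF' xq,
          touch_u hdom cF2.1 xF' uF'⟩, ⟨?_, ?_⟩, ?_⟩
      · exact ⟨x, Or.inr rfl, q, rfl, adj_del hxq (Or.inr hqu) (Or.inr hqx)⟩
      · exact (touch_u (S := {p}) hdom ⟨p, rfl⟩ xp
          (fun h => hpu (Set.mem_singleton_iff.1 h).symm)).mono le_rfl hpp Set.Subset.rfl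
      · exact touch_u (S := {q}) hdom ⟨q, rfl⟩ xq
          (fun h => hqu (Set.mem_singleton_iff.1 h).symm)
    · simp only [List.mem_cons, List.not_mem_nil, or_false, forall_eq_or_imp, forall_eq]
      refine ⟨sC, sF', ?_, Set.singleton_subset_iff.2 hq, Set.singleton_subset_iff.2 hu⟩
      rintro a (rfl | h)
      · exact hp
      · rw [Set.mem_singleton_iff.1 h]; exact hx
  have hC1' : IsComp G (Z \ {u, x, p, q}) C1 := by
    refine ⟨hC1O, hC1.conn, ?_⟩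
    intro a ha b hb hab
    apply hC1.closed a ha b ⟨hb, ?_⟩ hab
    intro hbF
    exact hnt ⟨a, ha, b, hbF, hab⟩
  obtain ⟨C2, hC2, hFC2⟩ := exists_comp (O := Z \ {u, x, p, q}) cF2 hF2
  refine ⟨C1, C2, hC1', hC2, ?_, tC1p, tC1q, tF2p.mono le_rfl hFC2 Set.Subset.rfl,
    tF2q.mono le_rfl hFC2 Set.Subset.rfl⟩
  by_contra hnd
  rw [Set.not_disjoint_iff] at hnd
  obtain ⟨a, ha1, ha2⟩ := hnd
  have h1 : C2 ⊆ C1 := hC2.conn.subset_of_closed ⟨a, ha2, ha1⟩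
    fun c _ hc1 b hb hcb => hC1'.closed c hc1 b (hC2.sub hb) hcb
  obtain ⟨f, hf⟩ := cF2.1
  exact Set.disjoint_left.1 hC1F (h1 (hFC2 hf)) hf

end NApexGraphs.Dom.Helper59
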